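import Pool.Agent.Work.MP_04d5a3_full.Main

/-!
# MP_04d5a3_pr, Q1 is false

On the Cartesian product `G` of two regular trees of large degree (a vertex-transitive, non-amenable graph of
exponential growth) first passage percolation in a hostile environment has a strong survival regime: for
suitable `0 < μ < 1` and `lam > 0`, with positive probability `FPP_1` survives and every connected set of
vertices occupied by `FPP_lam` is finite.

The definitions of the model are in `Pool/Agent/Work/MP_04d5a3_full/Defs.lean`; a paper version of the proof is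
`Pool/Agent/Work/MP_04d5a3_full/PROOF.md`.
-/

namespace Pool.Agent.Results.MP_04d5a3_pr.StrongSurvival

open MeasureTheory Pool.Agent.FPPHE
open scoped ENNReal

theorem result :
    ∃ (V : Type) (_ : Countable V) (G : SimpleGraph V) (o : V) (μ lam : ℝ),
      Infinite V ∧ G.Connected ∧ (∀ v, (G.neighborSet v).Finite) ∧ VertexTransitive G ∧
      ExpGrowth G o ∧ 0 < μ ∧ μ < 1 ∧ 0 < lam ∧
      (∀ᵐ ω ∂(law V μ lam), ∃ (τ : V → ℝ≥0∞) (red : V → Prop), IsEvolution G o ω τ red ∧
        ∀ (τ' : V → ℝ≥0∞) (red' : V → Prop), IsEvolution G o ω τ' red' →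
          τ' = τ ∧ ∀ v, τ v < ⊤ → (red' v ↔ red v)) ∧
      ∃ E : Set (Env V), MeasurableSet E ∧ 0 < law V μ lam E ∧
        ∀ ω ∈ E, ∀ (τ : V → ℝ≥0∞) (red : V → Prop), IsEvolution G o ω τ red →
          Survives G {v | τ v < ⊤ ∧ red v} ∧ ¬ Survives G {v | τ v < ⊤ ∧ ¬ red v} :=
  final

end Pool.Agent.Results.MP_04d5a3_pr.StrongSurvival
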